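import Pool.Agent.Y466.TW.Stm2

/-!
# Project TW, job TW-NO5: there is no unimodular class in `H^1(Z^5)`
-/

set_option autoImplicit false

open ExteriorAlgebra Module

namespace Pool.Agent.Y929.TW

open Pool.Agent.Results.MP_69cf13_gt.EEightPlusTenH Pool.Agent.Y466.TW

section
variable {M : Type} [AddCommGroup M]

theorem swap_ex (v : M) (z : ExteriorAlgebra ℤ M) :
    ∃ z', z * ι ℤ v = ι ℤ v * z' := by
  induction z using ExteriorAlgebra.induction with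
  | algebraMap r => exact ⟨algebraMap ℤ _ r, Algebra.commutes _ _⟩
  | ι a => exact ⟨-ι ℤ a, by rw [mul_neg]; exact eq_neg_of_add_eq_zero_left (ι_add_mul_swap _ _)⟩
  | mul a b ha hb =>
    obtain ⟨a', ha⟩ := ha
    obtain ⟨b', hb⟩ := hb
    exact ⟨a' * b', by rw [mul_assoc, hb, ← mul_assoc, ha, mul_assoc]⟩
  | add a b ha hb =>
    obtain ⟨a', ha⟩ := ha
    obtain ⟨b', hb⟩ := hb
    exact ⟨a' + b', by rw [add_mul, ha, hb, mul_add]⟩

theorem sandwich (v : M) (z : ExteriorAlgebra ℤ M) : ι ℤ v * z * ι ℤ v = 0 := by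
  obtain ⟨z', hz⟩ := swap_ex v z
  rw [mul_assoc, hz, ← mul_assoc, ι_sq_zero, zero_mul]

theorem mem_two (v u : M) : ι ℤ v * ι ℤ u ∈ ⋀[ℤ]^2 M := by
  rw [exteriorPower, pow_two]
  exact Submodule.mul_mem_mul ⟨v, rfl⟩ ⟨u, rfl⟩

end

theorem ne_zero' {n : ℕ} (v : Fin n → ℤ) (i j : Fin n) (hij : i ≠ j) (hv : v i ≠ 0) :
    ι ℤ v * ι ℤ (Pi.single j 1 : Fin n → ℤ) ≠ 0 := by
  intro h
  let d : Module.Dual ℤ (Fin n → ℤ) := LinearMap.proj i
  have h1 := congrArg (CliffordAlgebra.contractLeft d) h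
  have h2 := CliffordAlgebra.contractLeft_ι_mul (Q := (0 : QuadraticForm ℤ (Fin n → ℤ))) (d := d) v
    (ι ℤ (Pi.single j 1 : Fin n → ℤ))
  have h3 := CliffordAlgebra.contractLeft_ι (Q := (0 : QuadraticForm ℤ (Fin n → ℤ))) d
    (Pi.single j 1 : Fin n → ℤ)
  have hd : d (Pi.single j 1 : Fin n → ℤ) = 0 := by
    show (Pi.single j 1 : Fin n → ℤ) i = 0
    exact Pi.single_eq_of_ne hij 1
  rw [hd, map_zero] at h3
  have h4 : v i • ι ℤ (Pi.single j 1 : Fin n → ℤ) = 0 := by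
    have h5 := h2.symm.trans (h1.trans (map_zero _))
    have h6 : (CliffordAlgebra.contractLeft d) (ι ℤ (Pi.single j 1 : Fin n → ℤ)) = 0 := h3
    rw [h6, mul_zero, sub_zero] at h5
    exact h5
  rw [← map_smul, ι_eq_zero_iff] at h4
  have h7 := congrFun h4 j
  rw [Pi.smul_apply, Pi.single_eq_same, Pi.zero_apply, smul_eq_mul, mul_one] at h7
  exact hv h7

theorem nofive : NOFIVE := by
  rintro ω hω ⟨φ, hφ, m, b, hb, hdet⟩
  have hω1 : ω ∈ LinearMap.range (ι ℤ (M := Fin 5 → ℤ)) := by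
    have h : ω ∈ ⋀[ℤ]^1 (Fin 5 → ℤ) := hω
    rwa [exteriorPower, pow_one] at h
  obtain ⟨v, rfl⟩ := hω1
  obtain ⟨x, hx, hx0, hxy⟩ : ∃ x ∈ ⋀[ℤ]^2 (Fin 5 → ℤ), x ≠ 0 ∧ ∀ y, x * y * ι ℤ v = 0 := by
    by_cases hv : v = 0
    · refine ⟨_, mem_two (Pi.single 0 1) (Pi.single 1 1),
        ne_zero' (Pi.single 0 1) 0 1 (by decide) (by simp), fun y => ?_⟩
      rw [hv, map_zero, mul_zero]
    · obtain ⟨i, hi⟩ := Function.ne_iff.1 hv
      obtain ⟨j, hj⟩ := exists_ne i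
      refine ⟨_, mem_two v (Pi.single j 1), ne_zero' v i j hj.symm hi, fun y => ?_⟩
      rw [mul_assoc (ι ℤ v)]
      exact sandwich v _
  have hG : ∀ i j, φ (b i) (b j) = Aux.vol 5 (b i * b j * ι ℤ v) := by
    intro i j
    rw [hφ _ (hb.1 i) _ (hb.1 j), map_smul, Aux.vol_T, smul_eq_mul, mul_one]
  obtain ⟨c, hc⟩ := (Submodule.mem_span_range_iff_exists_fun ℤ).1 (hb.2.2 x hx)
  have hd0 : (Matrix.of fun i j => φ (b i) (b j)).det = 0 := by
    rw [← Matrix.exists_vecMul_eq_zero_iff]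
    refine ⟨c, ?_, ?_⟩
    · rintro rfl
      apply hx0
      rw [← hc]
      simp
    · funext j
      rw [Pi.zero_apply]
      have h1 : Aux.vol 5 (x * b j * ι ℤ v) = 0 := by rw [hxy, map_zero]
      rw [← hc, Finset.sum_mul, Finset.sum_mul, map_sum] at h1
      rw [← h1]
      simp only [Matrix.vecMul, dotProduct, Matrix.of_apply]
      refine Finset.sum_congr rfl fun i _ => ?_
      rw [hG, smul_mul_assoc, smul_mul_assoc, map_smul, smul_eq_mul]
  rw [hd0] at hdet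
  norm_num at hdet

end Pool.Agent.Y929.TW
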